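import Pool.Agent.Helper99.SZ.Stmts
import Pool.Agent.Helper47.Trs.Zero
import Pool.Agent.Helper47.Trs.Tdim
import Pool.Agent.Helper37.PiE.ZFinal

/-!
# The zero lemma on sums of elements of a finite set
-/

set_option autoImplicit false

namespace Pool.Helper99.SZ

open MvPolynomial Trs Trs.Z

section zch

variable {n : ℕ} (tor : Fin n → Bool) {G : Type} [AddCommGroup G] (f : G →+ (Fin n → ℂ))
  (S : Finset G) (F : Rg n)

/-- the generators -/
def zchGen (r : ℕ) : Set (Rg n) :=
  {a | ∃ l : List G, l.length = r ∧ (∀ g ∈ l, g ∈ S) ∧ a = tr tor (f l.sum) F}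

theorem zch_self (h0 : 0 ∈ S) (r : ℕ) : F ∈ zchGen tor f S F r := by
  refine ⟨List.replicate r 0, List.length_replicate, ?_, ?_⟩
  · intro g hg
    rw [List.eq_of_mem_replicate hg]
    exact h0
  · rw [List.sum_replicate, smul_zero, map_zero, tr_zero]

theorem zch_mono (h0 : 0 ∈ S) {r r' : ℕ} (h : r ≤ r') : zchGen tor f S F r ⊆ zchGen tor f S F r' := by
  rintro a ⟨l, hl, hlS, rfl⟩
  refine ⟨l ++ List.replicate (r' - r) 0, ?_, ?_, ?_⟩
  · rw [List.length_append, List.length_replicate, hl]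
    omega
  · intro g hg
    rcases List.mem_append.1 hg with h1 | h1
    · exact hlS g h1
    · rw [List.eq_of_mem_replicate h1]
      exact h0
  · rw [List.sum_append, List.sum_replicate, smul_zero, add_zero]

theorem zch_step {r : ℕ} {a : Rg n} (ha : a ∈ zchGen tor f S F r) (h : G) (hh : h ∈ S) :
    tr tor (f h) a ∈ zchGen tor f S F (r + 1) := by
  obtain ⟨l, hl, hlS, rfl⟩ := ha
  refine ⟨h :: l, ?_, ?_, ?_⟩
  · rw [List.length_cons, hl]
  · intro g hg
    rcases List.mem_cons.1 hg with h1 | h1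
    · rw [h1]; exact hh
    · exact hlS g h1
  · rw [tr_tr, ← map_add, List.sum_cons]

theorem zch_deg {r : ℕ} {a : Rg n} (ha : a ∈ zchGen tor f S F r) (i : Fin n) :
    a.degreeOf i ≤ F.degreeOf i := by
  obtain ⟨l, hl, hlS, rfl⟩ := ha
  exact deg_tr _ _ _ _

/-- the ideals -/
noncomputable def zchJ (r : ℕ) : Ideal (Rg n) := Ideal.span (zchGen tor f S F r)

/-- the vector spaces -/
noncomputable def zchV (r : ℕ) : Submodule ℂ (Rg n) := Submodule.span ℂ (zchGen tor f S F r)

theorem zch_span (r : ℕ) : Ideal.span (zchV tor f S F r : Set (Rg n)) = zchJ tor f S F r := by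
  apply le_antisymm
  · rw [Ideal.span_le]
    have : zchV tor f S F r ≤ (zchJ tor f S F r).restrictScalars ℂ :=
      Submodule.span_le.2 Ideal.subset_span
    exact this
  · exact Ideal.span_mono Submodule.subset_span

theorem zchJ_mono (h0 : 0 ∈ S) {r r' : ℕ} (h : r ≤ r') : zchJ tor f S F r ≤ zchJ tor f S F r' :=
  Ideal.span_mono (zch_mono tor f S F h0 h)

/-- minimal height of the primes between `J r` and the ideal of the neutral element -/
noncomputable def zchh (r : ℕ) : ℕ∞ :=
  sInf {x | ∃ q : Ideal (Rg n), q.IsPrime ∧ zchJ tor f S F r ≤ q ∧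
    q ≤ RingHom.ker (ev tor 0) ∧ q.height = x}

theorem zchh_le {r : ℕ} {q : Ideal (Rg n)} (hq : q.IsPrime) (h1 : zchJ tor f S F r ≤ q)
    (h2 : q ≤ RingHom.ker (ev tor 0)) : zchh tor f S F r ≤ q.height :=
  sInf_le ⟨q, hq, h1, h2, rfl⟩

theorem exists_zchh {r : ℕ} (h : zchJ tor f S F r ≤ RingHom.ker (ev tor 0)) :
    ∃ q : Ideal (Rg n), q.IsPrime ∧ zchJ tor f S F r ≤ q ∧
    q ≤ RingHom.ker (ev tor 0) ∧ q.height = zchh tor f S F r :=
  csInf_mem (s := {x | ∃ q : Ideal (Rg n), q.IsPrime ∧ zchJ tor f S F r ≤ q ∧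
    q ≤ RingHom.ker (ev tor 0) ∧ q.height = x}) ⟨_, _, ker_prime tor, h, le_rfl, rfl⟩

theorem zchh_mono (h0 : 0 ∈ S) {r r' : ℕ} (h : r ≤ r') :
    zchh tor f S F r ≤ zchh tor f S F r' := by
  refine sInf_le_sInf ?_
  rintro x ⟨q, h1, h2, h3, h4⟩
  exact ⟨q, h1, (zchJ_mono tor f S F h0 h).trans h2, h3, h4⟩

end zch

theorem st_ZCH : ST_ZCH := by
  classical
  intro n tor G _ _ f S d h0 hneg hd F hF hdeg hvan
  have hJ : ∀ r, r ≤ 2 * n → zchJ tor f S F r ≤ RingHom.ker (ev tor 0) := by
    intro r hr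
    refine (zchJ_mono tor f S F h0 hr).trans ?_
    rw [zchJ, Ideal.span_le]
    rintro a ⟨l, hl, hlS, rfl⟩
    rw [SetLike.mem_coe, RingHom.mem_ker]
    show ev tor 0 _ = 0
    rw [ev_tr, zero_add]
    exact hvan l hl hlS
  have hPJ : ∀ r, F ∈ zchJ tor f S F r := fun r => Ideal.subset_span (zch_self tor f S F h0 r)
  obtain ⟨r, hr, hrr⟩ := three (zchh tor f S F) n
    (fun a b hab _ => zchh_mono tor f S F h0 hab) (by
      obtain ⟨q, hq, h1, h2, h3⟩ := exists_zchh tor f S F (hJ 0 (Nat.zero_le _))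
      rw [← h3, Order.one_le_iff_ne_zero]
      intro h4
      rw [Ideal.height_eq_zero_iff_eq_bot] at h4
      have := h1 (hPJ 0)
      rw [h4] at this
      exact hF this) (by
      obtain ⟨q, hq, h1, h2, h3⟩ := exists_zchh tor f S F (hJ (2 * n) le_rfl)
      rw [← h3]
      exact height_le_n hq)
  obtain ⟨p, hp, hJp, hpm, hph⟩ := exists_zchh tor f S F (hJ (r + 2) hr)
  refine ⟨p, hp, ?_, hpm, ?_⟩
  · intro h
    have := hJp (hPJ _)
    rw [h] at this
    exact hF this
  intro I hI E hES hE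
  -- the codimension
  obtain ⟨c, hc⟩ := ENat.ne_top_iff_exists.1
    (ne_top_of_le_ne_top (ENat.natCast_ne_top n) (height_le_n hp))
  have hcI : c + I.card = n := by
    have := tdim n p hp I hI
    rw [← hc] at this
    exact_mod_cast this
  -- the translates
  let T := {g : G // g ∈ E}
  let q : T → Ideal (Rg n) := fun t => p.comap (trE tor (f t.1)).toRingEquiv
  have q_mem : ∀ t a, a ∈ q t ↔ tr tor (f t.1) a ∈ p := fun t a => Iff.rfl
  have hqp : ∀ t, (q t).IsPrime := fun t => Ideal.comap_isPrime _ _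
  have hqh : ∀ t, (q t).height = c := by
    intro t
    rw [hc]
    exact RingEquiv.height_comap _ _
  have hcard : Fintype.card T = E.card := Fintype.card_coe E
  have hfin := (Pool.Agent.Helper37.PiE.s_core tdim) n c 0 0 tor 0 0 I hcI (by omega) d hd T q ?_ hqp
    hqh ?_ ?_ (zchV tor f S F (r + 1)) ?_ ?_ ?_
  · rw [hcard] at hfin
    simpa using hfin
  · -- injectivity
    intro t t' htt
    apply Subtype.ext
    apply hE t.1 t.2 t'.1 t'.2
    intro a
    have h2 : tr tor (f (-(t'.1))) a ∈ q t' ↔ tr tor (f (-(t'.1))) a ∈ q t := by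
      rw [htt]
    rw [q_mem, q_mem, tr_tr, tr_tr, ← map_add, ← map_add, add_neg_cancel, map_zero, tr_zero,
      ← sub_eq_add_neg] at h2
    exact h2
  · -- independence
    intro t a ha haq
    have h1 := hI.1 _ ((vars_tr tor _ a).trans ha) ((q_mem t a).1 haq)
    exact tr_injective tor _ (by rw [h1, map_zero])
  · -- transversality
    intro t
    trivial
  · -- minimal primes
    intro t
    rw [zch_span]
    refine ⟨⟨hqp t, ?_⟩, ?_⟩
    · rw [zchJ, Ideal.span_le]
      intro a ha
      rw [SetLike.mem_coe, q_mem]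
      exact hJp (Ideal.subset_span (zch_step tor f S F ha t.1 (hES t.2)))
    · rintro q' ⟨hq', hJq'⟩ hle
      let v := f t.1
      let q'' : Ideal (Rg n) := q'.comap (trE tor (-v)).toRingEquiv
      have q''_mem : ∀ a, a ∈ q'' ↔ tr tor (-v) a ∈ q' := fun a => Iff.rfl
      have hq'' : q''.IsPrime := Ideal.comap_isPrime _ _
      have h1 : q'' ≤ p := by
        intro a ha
        have h2 := hle ((q''_mem a).1 ha)
        rwa [q_mem, tr_tr_neg] at h2
      have h2 : zchJ tor f S F r ≤ q'' := by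
        rw [zchJ, Ideal.span_le]
        intro a ha
        rw [SetLike.mem_coe, q''_mem]
        have h3 := zch_step tor f S F ha (-t.1) (hneg _ (hES t.2))
        rw [map_neg] at h3
        exact hJq' (Ideal.subset_span h3)
      have h3 : p.height ≤ q''.height := by
        rw [hph, hrr]
        exact zchh_le tor f S F hq'' h2 (h1.trans hpm)
      have h4 : q'' = p := by
        have : q''.FiniteHeight := ⟨Or.inr (ne_top_of_le_ne_top (ENat.natCast_ne_top n)
          (height_le_n hq''))⟩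
        exact Ideal.eq_of_le_of_height_le q'' h1 h3
      intro a ha
      have h5 : tr tor v a ∈ q'' := by
        rw [h4]
        exact (q_mem t a).1 ha
      rwa [q''_mem, tr_neg_tr] at h5
  · -- multiplicities
    intro t a ha k1 k2 hk
    have e1 : k1 = 0 := by omega
    have e2 : k2 = 0 := by omega
    subst e1 e2
    show a ∈ q t
    rw [q_mem]
    have h1 : zchV tor f S F (r + 1) ≤
        ((zchJ tor f S F (r + 2)).restrictScalars ℂ).comap (tr tor (f t.1)).toLinearMap := by
      refine Submodule.span_le.2 fun b hb => ?_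
      have h2 := zch_step tor f S F hb t.1 (hES t.2)
      have h3 : tr tor (f t.1) b ∈ zchJ tor f S F (r + 2) := Ideal.subset_span h2
      exact h3
    have h2 : tr tor (f t.1) a ∈ zchJ tor f S F (r + 2) := h1 ha
    exact hJp h2
  · -- degrees
    intro a ha i
    refine Submodule.span_induction (p := fun a _ => a.degreeOf i ≤ d i) ?_ ?_ ?_ ?_ ha
    · intro a ha
      exact (zch_deg tor f S F ha i).trans (hdeg i)
    · rw [degreeOf_zero]; exact Nat.zero_le _
    · intro a b _ _ h1 h2
      exact (degreeOf_add_le _ _ _).trans (max_le h1 h2)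
    · intro a b _ h1
      rw [smul_eq_C_mul]
      exact (degreeOf_C_mul_le _ _ _).trans h1

end Pool.Helper99.SZ
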